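import Pool.Agent.Helper5.LCU.Stmts

/-! Rows SUP and PNZ. -/

set_option autoImplicit false

namespace Pool.Agent.Helper53.LCU

open Pool.Agent.Helper5.LCU

theorem st_SUP (hGP : ST_GP) (hNIZ : ST_NIZ) : ST_SUP := by
  intro a b ha hb n p q p' q' hp hq h0 h1
  obtain ⟨i, k, hi, hk, hik, hai, hbk⟩ := ((hGP a b ha.1 hb.1 n 0 0).2).1 h0
  obtain ⟨i1, k1, hi1, hk1, hik1, hai1, hbk1⟩ := ((hGP a b ha.1 hb.1 n p q).2).1 h1
  rw [zero_add] at hai hbk
  have key : ∀ (c : ℕ → ℝ), SLC c → ∀ (P P' I I1 : ℕ), P' ≤ P → 0 < c I → 0 < c (P + I1) →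
      0 < c (P' + max I1 (I - P')) := by
    intro c hc P P' I I1 hP h2 h3
    by_cases h : P' + max I1 (I - P') ≤ P + I1
    · exact hNIZ c hc I _ (P + I1) (by omega) h h2 h3
    · have : P' + max I1 (I - P') = I := by omega
      rw [this]; exact h2
  refine ((hGP a b ha.1 hb.1 n p' q').2).2 ⟨max i1 (i - p'), max k1 (k - q'), by omega, by omega,
    by omega, key a ha p p' i i1 hp hai hai1, key b hb q q' k k1 hq hbk hbk1⟩

theorem st_PNZ (hGP : ST_GP) (hNIZ : ST_NIZ) : ST_PNZ := by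
  intro a b ha hb x y z hxy hyz h0 h1
  obtain ⟨i, k, hi, hk, hik, hai, hbk⟩ := ((hGP a b ha.1 hb.1 x 0 0).2).1 h0
  obtain ⟨i1, k1, hi1, hk1, hik1, hai1, hbk1⟩ := ((hGP a b ha.1 hb.1 z 0 0).2).1 h1
  refine ((hGP a b ha.1 hb.1 y 0 0).2).2 ?_
  simp only [zero_add] at *
  by_cases h2 : y < i1
  · exact ⟨y, k, le_rfl, by omega, by omega, hNIZ a ha i y i1 (by omega) (by omega) hai hai1, hbk⟩
  · by_cases h3 : y < k1
    · exact ⟨i, y, by omega, le_rfl, by omega, hai, hNIZ b hb k y k1 (by omega) (by omega) hbk hbk1⟩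
    · exact ⟨i1, k1, by omega, by omega, by omega, hai1, hbk1⟩

end Pool.Agent.Helper53.LCU
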